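import Mathlib
import Pool.Agent.Lib.MP_51f8fd_al.NotCode

namespace Pool.Agent.Results.MP_51f8fd_al.MaximalNotCode

/-- The Cayley graph `Cay(G,S)`: the edges are the pairs `{g, s g}` with `s ∈ S`. -/
def cayley {G : Type*} [Group G] (S : Set G) : SimpleGraph G :=
  SimpleGraph.fromRel fun g h => ∃ s ∈ S, h = s * g

/-- Each vertex outside `C` has exactly one neighbour in `C`. -/
def IsPerfectCodeIn {V : Type*} (Γ : SimpleGraph V) (C : Set V) : Prop :=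
  ∀ v, v ∉ C → ∃! c, c ∈ C ∧ Γ.Adj v c

/-- `A` is a perfect code in some Cayley graph of `G`. -/
def IsPerfectCodeOf {G : Type*} [Group G] (A : Subgroup G) : Prop :=
  ∃ S : Set G, (1 : G) ∉ S ∧ (∀ s ∈ S, s⁻¹ ∈ S) ∧ IsPerfectCodeIn (cayley S) (A : Set G)

theorem result :
    ∃ n : ℕ, 0 < n ∧ ∃ A : Subgroup (Equiv.Perm (Fin n)), IsCoatom A ∧ ¬ IsPerfectCodeOf A := by
  obtain ⟨A, hA, h⟩ := Pool.Agent.Lib.MP_51f8fd_al.exists_example
  refine ⟨97970, by norm_num, A, hA, ?_⟩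
  rintro ⟨S, h1, hS, hc⟩
  apply h S hS
  intro g hg
  have hadj : ∀ c, (cayley S).Adj g c ↔ c * g⁻¹ ∈ S := by
    intro c
    simp only [cayley, SimpleGraph.fromRel_adj]
    constructor
    · rintro ⟨_, ⟨s, hs, rfl⟩ | ⟨s, hs, rfl⟩⟩
      · simpa using hs
      · simpa using hS s hs
    · intro hc
      refine ⟨?_, Or.inl ⟨_, hc, by simp⟩⟩
      rintro rfl
      exact h1 (by simpa using hc)
  obtain ⟨c, ⟨c1, c2⟩, cu⟩ := hc g hg
  refine ⟨c * g⁻¹, ⟨(hadj c).1 c2, by simpa using c1⟩, ?_⟩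
  rintro s ⟨s1, s2⟩
  rw [← cu (s * g) ⟨s2, (hadj _).2 (by simpa using s1)⟩]
  simp

end Pool.Agent.Results.MP_51f8fd_al.MaximalNotCode
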