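import Mathlib
import Pool.Agent.Lib.MP_51f8fd_al.Wreath

namespace Pool.Agent.Results.MP_51f8fd_al.WreathCode

/-- The Cayley graph `Cay(G,S)`: the edges are the pairs `{g, s g}` with `s ∈ S`. -/
def cayley {G : Type*} [Group G] (S : Set G) : SimpleGraph G :=
  SimpleGraph.fromRel fun g h => ∃ s ∈ S, h = s * g

/-- Each vertex outside `C` has exactly one neighbour in `C`. -/
def IsPerfectCodeIn {V : Type*} (Γ : SimpleGraph V) (C : Set V) : Prop :=
  ∀ v, v ∉ C → ∃! c, c ∈ C ∧ Γ.Adj v c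

/-- `A` is a perfect code in some Cayley graph of `G`. -/
def IsPerfectCodeOf {G : Type*} [Group G] (A : Subgroup G) : Prop :=
  ∃ S : Set G, (1 : G) ∉ S ∧ (∀ s ∈ S, s⁻¹ ∈ S) ∧ IsPerfectCodeIn (cayley S) (A : Set G)

theorem result (n a b : ℕ) (ha : 0 < a) (blk : Fin n → Fin b)
    (hblk : ∀ j, (Finset.univ.filter fun p => blk p = j).card = a)
    (K : Subgroup (Equiv.Perm (Fin b))) (W : Subgroup (Equiv.Perm (Fin n)))
    (hW : ∀ g, g ∈ W ↔ ∃ k ∈ K, ∀ p, blk (g p) = k (blk p)) :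
    IsPerfectCodeOf W ↔ IsPerfectCodeOf K := by
  have key : ∀ (m : ℕ) (A : Subgroup (Equiv.Perm (Fin m))),
      IsPerfectCodeOf A ↔ Pool.Agent.Lib.MP_51f8fd_al.Code A := by
    intro m A
    refine exists_congr fun S => and_congr_right fun h1 => and_congr_right fun hS =>
      forall_congr' fun g => imp_congr_right fun _ => ?_
    have hadj : ∀ c, (cayley S).Adj g c ↔ c * g⁻¹ ∈ S := by
      intro c
      simp only [cayley, SimpleGraph.fromRel_adj]
      constructor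
      · rintro ⟨_, ⟨s, hs, rfl⟩ | ⟨s, hs, rfl⟩⟩
        · simpa using hs
        · simpa using hS s hs
      · intro hc
        refine ⟨?_, Or.inl ⟨_, hc, by simp⟩⟩
        rintro rfl
        exact h1 (by simpa using hc)
    constructor
    · rintro ⟨c, ⟨c1, c2⟩, cu⟩
      refine ⟨c * g⁻¹, ⟨(hadj c).1 c2, by simpa using c1⟩, ?_⟩
      rintro s ⟨s1, s2⟩
      rw [← cu (s * g) ⟨s2, (hadj _).2 (by simpa using s1)⟩]
      simp
    · rintro ⟨s, ⟨s1, s2⟩, su⟩
      refine ⟨s * g, ⟨s2, (hadj _).2 (by simpa using s1)⟩, ?_⟩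
      rintro c ⟨c1, c2⟩
      rw [← su (c * g⁻¹) ⟨(hadj c).1 c2, by simpa using c1⟩]
      simp
  have e : W = Pool.Agent.Lib.MP_51f8fd_al.Wr blk K := Subgroup.ext hW
  rw [key, key, e]
  exact Pool.Agent.Lib.MP_51f8fd_al.Wr_code_iff blk ha hblk K

end Pool.Agent.Results.MP_51f8fd_al.WreathCode
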